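import Pool.Agent.H74.BTL.Targets

/-!
# BDY: functions with zero sums on the cosets are boundaries
-/

set_option autoImplicit false

namespace Pool.Agent.H36.BTL

open Pool.Agent.H74.BTL

universe u

theorem pf_BDY : T_BDY.{u} := by
  classical
  intro G _ A _ a L hL f hf
  set Φ : ((G × A) →₀ ℝ) →ₗ[ℝ] (G →₀ ℝ) := Finsupp.linearCombination ℝ
    (fun p : G × A => (Finsupp.single (p.1 * a p.2) 1 - Finsupp.single p.1 1 : G →₀ ℝ)) with hΦ
  have h1 : ∀ l ∈ L, ∀ x : G,
      (Finsupp.single (x * l) 1 - Finsupp.single x 1 : G →₀ ℝ) ∈ LinearMap.range Φ := by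
    intro l hl
    rw [← hL] at hl
    induction hl using Subgroup.closure_induction with
    | mem l hl =>
      obtain ⟨α, rfl⟩ := hl
      intro x
      refine ⟨Finsupp.single (x, α) 1, ?_⟩
      rw [hΦ, Finsupp.linearCombination_single, one_smul]
    | one =>
      intro x
      rw [mul_one, sub_self]
      exact Submodule.zero_mem _
    | mul l l' _ _ h h' =>
      intro x
      have e : (Finsupp.single (x * (l * l')) 1 - Finsupp.single x 1 : G →₀ ℝ) =
          (Finsupp.single (x * l * l') 1 - Finsupp.single (x * l) 1) +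
            (Finsupp.single (x * l) 1 - Finsupp.single x 1) := by
        rw [mul_assoc]
        abel
      rw [e]
      exact Submodule.add_mem _ (h' _) (h _)
    | inv l _ h =>
      intro x
      have h2 := Submodule.neg_mem _ (h (x * l⁻¹))
      rwa [neg_sub, inv_mul_cancel_right] at h2
  have h2 : f ∈ LinearMap.range Φ := by
    have e1 : f.sum (fun x r => (Finsupp.single ((x : G ⧸ L).out) r : G →₀ ℝ)) = 0 := by
      have e2 : Finsupp.mapDomain (fun x : G => ((x : G ⧸ L).out)) f = 0 := by
        have e3 : Finsupp.mapDomain (fun x : G => ((x : G ⧸ L).out)) f =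
            Finsupp.mapDomain (fun y : G ⧸ L => y.out)
              (Finsupp.mapDomain (fun x : G => (x : G ⧸ L)) f) := by
          rw [← Finsupp.mapDomain_comp]
          rfl
        rw [e3, hf, Finsupp.mapDomain_zero]
      exact e2
    have e4 : f = f.sum (fun x r =>
        (Finsupp.single x r - Finsupp.single ((x : G ⧸ L).out) r : G →₀ ℝ)) := by
      rw [Finsupp.sum_sub, e1, sub_zero, Finsupp.sum_single]
    rw [e4]
    refine Submodule.sum_mem _ fun x _ => ?_
    obtain ⟨l, hl⟩ := QuotientGroup.mk_out_eq_mul L x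
    have h3 := Submodule.smul_mem _ (-f x) (h1 l l.2 x)
    have e5 : (Finsupp.single x (f x) - Finsupp.single ((x : G ⧸ L).out) (f x) : G →₀ ℝ) =
        (-f x) • (Finsupp.single (x * (l : G)) 1 - Finsupp.single x 1 : G →₀ ℝ) := by
      rw [hl, smul_sub, Finsupp.smul_single, Finsupp.smul_single, smul_eq_mul, mul_one,
        Finsupp.single_neg, Finsupp.single_neg]
      abel
    show (Finsupp.single x (f x) - Finsupp.single ((x : G ⧸ L).out) (f x) : G →₀ ℝ) ∈ _
    rw [e5]
    exact h3
  obtain ⟨b, hb⟩ := h2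
  refine ⟨b, ?_⟩
  rw [← hb, hΦ, Finsupp.linearCombination_apply]
  refine Finsupp.sum_congr fun p _ => ?_
  rw [smul_sub, Finsupp.smul_single, Finsupp.smul_single, smul_eq_mul, mul_one]

end Pool.Agent.H36.BTL
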