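import Pool.Agent.H74.BTL.Targets

/-!
# CCL: cocycles along words
-/

set_option autoImplicit false

namespace Pool.Agent.H36.BTL

open Pool.Agent.H74.BTL

universe u

theorem pf_CCL : T_CCL.{u} := by
  intro G _ J t b hb w
  have h1 : b 1 = 0 := by
    have h := hb 1 1
    rw [mul_one, rt_one] at h
    exact left_eq_add.1 h
  induction w with
  | nil =>
    rw [pr_nil, h1]
    rfl
  | cons j w ih =>
    rw [pr_cons, hb, ih]
    rfl

end Pool.Agent.H36.BTL
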