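import Pool.Agent.H74.BTL.Targets

/-!
# CUT: cutting
-/

set_option autoImplicit false

open scoped ENNReal RealInnerProductSpace
open Filter Topology

namespace Pool.Agent.H36.BTL

open Pool.Agent.H74.BTL

universe u

open Classical in
theorem pf_CUT : T_CUT.{u} := by
  intro G _ J _ ζ e he
  set c : ℝ := e / (Fintype.card J + 1) with hc
  have hc0 : 0 < c := by positivity
  have h1 : ∀ᶠ B : Finset G in atTop, ∀ j, |∑ x ∈ B, ζ j x ^ 2 - ∑' x, ζ j x ^ 2| < c := by
    rw [eventually_all]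
    intro j
    have h2 := (summable_sq (ζ j)).hasSum
    exact (Metric.tendsto_nhds.1 h2 c hc0).mono fun B hB => by rwa [Real.dist_eq] at hB
  obtain ⟨B, hB⟩ := h1.exists
  have hm : ∀ j, Memℓp (fun x : G => if x ∈ B then ζ j x else 0) 2 := by
    intro j
    refine memL2 ?_
    refine summable_of_ne_finset_zero (s := B) fun x hx => ?_
    rw [if_neg hx]
    norm_num
  refine ⟨B, fun j => ⟨fun x => if x ∈ B then ζ j x else 0, hm j⟩, fun j x => rfl, ?_⟩
  have h3 : ∀ j, ‖ζ j - ⟨fun x => if x ∈ B then ζ j x else 0, hm j⟩‖ ^ 2 ≤ c := by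
    intro j
    rw [norm_sq_eq]
    have e1 : ∀ x, ((ζ j - ⟨fun x => if x ∈ B then ζ j x else 0, hm j⟩ : L2 G) : G → ℝ) x ^ 2 =
        ζ j x ^ 2 - (if x ∈ B then ζ j x ^ 2 else 0) := by
      intro x
      rw [lp.coeFn_sub, Pi.sub_apply]
      show (ζ j x - if x ∈ B then ζ j x else 0) ^ 2 = _
      by_cases hx : x ∈ B
      · rw [if_pos hx, if_pos hx]
        ring
      · rw [if_neg hx, if_neg hx]
        ring
    have h4 : HasSum (fun x => if x ∈ B then ζ j x ^ 2 else 0) (∑ x ∈ B, ζ j x ^ 2) := by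
      have h5 : HasSum (fun x => if x ∈ B then ζ j x ^ 2 else 0)
          (∑ x ∈ B, (if x ∈ B then ζ j x ^ 2 else 0)) :=
        hasSum_sum_of_ne_finset_zero fun x hx => if_neg hx
      have e2 : ∑ x ∈ B, (if x ∈ B then ζ j x ^ 2 else 0) = ∑ x ∈ B, ζ j x ^ 2 :=
        Finset.sum_congr rfl fun x hx => if_pos hx
      rwa [e2] at h5
    rw [tsum_congr e1, ((summable_sq (ζ j)).hasSum.sub h4).tsum_eq]
    have h6 := (abs_lt.1 (hB j)).1
    linarith
  refine (Finset.sum_le_sum fun j _ => h3 j).trans ?_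
  rw [Finset.sum_const, Finset.card_univ, nsmul_eq_mul, hc]
  have h7 : (0 : ℝ) ≤ Fintype.card J := Nat.cast_nonneg _
  rw [mul_div_assoc', div_le_iff₀ (by positivity)]
  nlinarith

end Pool.Agent.H36.BTL
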