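import Pool.Agent.H74.BTL.Targets

/-!
# GEO: the sum over all pairs
-/

set_option autoImplicit false

namespace Pool.Agent.H36.BTL

open Pool.Agent.H74.BTL

theorem geo_le (r : ℝ) (h0 : 0 ≤ r) (h1 : r < 1) (n : ℕ) :
    ∑ i ∈ Finset.range n, r ^ i ≤ (1 - r)⁻¹ := by
  have h2 : 0 < 1 - r := by linarith
  have h3 := geom_sum_mul_neg r n
  have h4 : 0 ≤ r ^ n := pow_nonneg h0 n
  rw [inv_eq_one_div, le_div_iff₀ h2, h3]
  linarith

theorem geo_le' (r : ℝ) (h0 : 0 ≤ r) (h1 : r < 1) (n : ℕ) :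
    ∑ j ∈ Finset.range n, r ^ (n - j) ≤ (1 - r)⁻¹ := by
  have h2 : ∑ j ∈ Finset.range n, r ^ (n - j) = ∑ j ∈ Finset.range n, r ^ (j + 1) := by
    rw [← Finset.sum_range_reflect (fun j => r ^ (j + 1)) n]
    refine Finset.sum_congr rfl fun j hj => ?_
    have := Finset.mem_range.1 hj
    congr 1
    omega
  rw [h2]
  refine le_trans (Finset.sum_le_sum fun j _ => ?_) (geo_le r h0 h1 n)
  exact pow_le_pow_of_le_one h0 h1.le (Nat.le_succ j)

theorem pf_GEO : T_GEO := by
  intro r h0 h1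
  refine ⟨2 * ((1 - r)⁻¹ * (1 - r)⁻¹), fun n => ?_⟩
  have hc : 0 ≤ (1 - r)⁻¹ := inv_nonneg.2 (by linarith)
  have h2 : ∀ i ∈ Finset.range n, ∀ j ∈ Finset.range n,
      r ^ (n - (max i j - min i j)) ≤ r ^ i * r ^ (n - j) + r ^ (n - i) * r ^ j := by
    intro i hi j hj
    have hi' := Finset.mem_range.1 hi
    have hj' := Finset.mem_range.1 hj
    rw [← pow_add, ← pow_add]
    rcases le_total i j with h | h
    · have e : n - (max i j - min i j) = i + (n - j) := by
        rw [max_eq_right h, min_eq_left h]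
        omega
      rw [e]
      have := pow_nonneg h0 (n - i + j)
      linarith
    · have e : n - (max i j - min i j) = n - i + j := by
        rw [max_eq_left h, min_eq_right h]
        omega
      rw [e]
      have := pow_nonneg h0 (i + (n - j))
      linarith
  have h3 : ∑ i ∈ Finset.range n, ∑ j ∈ Finset.range n,
      (r ^ i * r ^ (n - j) + r ^ (n - i) * r ^ j) =
      (∑ i ∈ Finset.range n, r ^ i) * (∑ j ∈ Finset.range n, r ^ (n - j)) +
        (∑ i ∈ Finset.range n, r ^ (n - i)) * ∑ j ∈ Finset.range n, r ^ j := by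
    rw [Finset.sum_mul_sum, Finset.sum_mul_sum, ← Finset.sum_add_distrib]
    refine Finset.sum_congr rfl fun i _ => ?_
    rw [← Finset.sum_add_distrib]
  refine (Finset.sum_le_sum fun i hi => Finset.sum_le_sum fun j hj => h2 i hi j hj).trans ?_
  rw [h3, two_mul]
  have a1 := geo_le r h0 h1 n
  have a2 := geo_le' r h0 h1 n
  have b1 : 0 ≤ ∑ i ∈ Finset.range n, r ^ i := Finset.sum_nonneg fun i _ => pow_nonneg h0 i
  have b2 : 0 ≤ ∑ i ∈ Finset.range n, r ^ (n - i) := Finset.sum_nonneg fun i _ => pow_nonneg h0 _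
  exact add_le_add (mul_le_mul a1 a2 b2 hc) (mul_le_mul a2 a1 b1 hc)

end Pool.Agent.H36.BTL
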