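import Pool.Agent.H74.BTL.Targets

/-!
# VAR: the variance of the walk
-/

set_option autoImplicit false

open scoped ENNReal RealInnerProductSpace

namespace Pool.Agent.H36.BTL

open Pool.Agent.H74.BTL

universe u

theorem mean_zero {G : Type u} [Group G] {J : Type} [Fintype J] [Nonempty J] (t : J → G)
    (ζ : J → L2 G) (h : ∑ j, ζ j = 0) (n : ℕ) : EE n (WS t ζ) = 0 := by
  induction n with
  | zero => rfl
  | succ n ih =>
    rw [EE_succ]
    have e : ∀ j, EE n (fun w => WS t ζ (j :: w)) = ζ j := by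
      intro j
      show EE n (fun w => ζ j + rt (t j) (WS t ζ w)) = ζ j
      rw [EE_add, EE_const]
      have h1 : EE n (fun w => rt (t j) (WS t ζ w)) =
          (rt (t j) : L2 G →ₗ[ℝ] L2 G) (EE n (WS t ζ)) :=
        EE_map n (rt (t j) : L2 G →ₗ[ℝ] L2 G) (WS t ζ)
      rw [h1, ih, map_zero, add_zero]
    rw [Finset.sum_congr rfl fun j _ => e j, h, smul_zero]

theorem pf_VAR : T_VAR.{u} := by
  intro G _ J _ _ t ζ h n
  have hJ : (Fintype.card J : ℝ) ≠ 0 := Nat.cast_ne_zero.2 Fintype.card_ne_zero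
  induction n with
  | zero =>
    show ‖(0 : L2 G)‖ ^ 2 = _
    simp
  | succ n ih =>
    rw [EE_succ]
    have e : ∀ j, EE n (fun w => ‖WS t ζ (j :: w)‖ ^ 2) =
        ‖ζ j‖ ^ 2 + EE n (fun w => ‖WS t ζ w‖ ^ 2) := by
      intro j
      set T : L2 G →ₗ[ℝ] ℝ :=
        (((innerSL ℝ (ζ j)).comp (rt (t j)) : L2 G →L[ℝ] ℝ) : L2 G →ₗ[ℝ] ℝ) with hT
      have h1 : ∀ w, ‖WS t ζ (j :: w)‖ ^ 2 =
          ‖ζ j‖ ^ 2 + ((2 : ℝ) • T (WS t ζ w) + ‖WS t ζ w‖ ^ 2) := by
        intro w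
        show ‖ζ j + rt (t j) (WS t ζ w)‖ ^ 2 = _
        rw [norm_add_sq_real, norm_rt, smul_eq_mul, add_assoc]
        rfl
      rw [funext h1, EE_add, EE_add, EE_const, EE_smul, EE_map, mean_zero t ζ h, map_zero,
        smul_zero, zero_add]
    rw [Finset.sum_congr rfl fun j _ => e j, Finset.sum_add_distrib, ih, Finset.sum_const,
      Finset.card_univ, nsmul_eq_mul, smul_eq_mul]
    push_cast
    field_simp
    ring

end Pool.Agent.H36.BTL
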